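import Pool.Agent.V8H43.MS.Rank

set_option autoImplicit false

/-!
# Decompositions of the all-one matrix
-/

namespace Pool.Agent.V8H43.MS

open Finset
open Pool.Agent.W888.GX (mu row row_dot)

variable {F : Type} [Field F] {n m b : ℕ}

theorem wt_add_one (u : Fin n → ZMod 2) : wt (u + 1) + wt u = n := by
  unfold wt
  have h1 : (univ.filter fun i => (u + 1) i ≠ 0) = univ.filter fun i => ¬ (u i ≠ 0) := by
    ext i
    rw [mem_filter, mem_filter]
    have : ∀ a : ZMod 2, a + 1 ≠ 0 ↔ ¬ (a ≠ 0) := by decide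
    exact and_congr Iff.rfl (this _)
  rw [h1]
  have h2 := card_filter_add_card_filter_not (s := (univ : Finset (Fin n))) (fun i => u i ≠ 0)
  rw [card_univ, Fintype.card_fin] at h2
  omega

/-- The character of a row. -/
theorem phi_add_row (v : Fin m → Fin 3 → Fin n) (j : Fin m) (u : Fin n → ZMod 2) (x : XX n b)
    (y : YY n b) :
    Phi F (u + row v j) x y = Phi F u x y * sg F (∑ l, x (v j l) (y (v j l))) := by
  have h1 := row_dot v j (fun i => x i (y i))
  rw [← h1]
  unfold Phi dotProduct
  rw [sg_sum, ← prod_mul_distrib]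
  refine prod_congr rfl fun i _ => ?_
  rw [Pi.add_apply, add_mul, sg_add]

/-- The number of rectangles is large. -/
theorem core (htwo : (2 : F) ≠ 0) (v : Fin m → Fin 3 → Fin n) (e : Fin m → ZMod 2) (r k : ℕ)
    (hk : 2 * (k + 3) + 7 ≤ r) (hv : ∀ h : Fin m → ZMod 2, wt h ≤ 2 * r →
      wt h ≤ 2 * wt (col v h)) (hkn : k < n) (hb : 1 ≤ b) {ι : Type} [Fintype ι]
    (f : ι → XX n b → F) (g : ι → YY n b → F) (jj : ι → Fin m)
    (hsum : ∀ x y, ∑ i, f i x * g i y = 1)
    (hrect : ∀ i x y, f i x * g i y ≠ 0 →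
      ∑ l, x (v (jj i) l) (y (v (jj i) l)) ≠ e (jj i)) :
    b ^ (k + 1) ≤ Fintype.card ι * 2 ^ n := by
  classical
  obtain ⟨E, hE0, hE⟩ := exists_design F v e r (k + 3) hk hv
  have h11 : (1 : Fin n → ZMod 2) + 1 = 0 := add_self_eq 1
  let c : (Fin n → ZMod 2) → F := fun u => E (u + 1)
  have hc1 : c 1 ≠ 0 := by
    show E (1 + 1) ≠ 0
    rw [h11, hE0]
    exact one_ne_zero
  let U : Fin m → Finset (Fin n → ZMod 2) := fun j => univ.filter fun u =>
    wt (u + 1) ≤ k + 3 ∧ wt (u + row v j + 1) ≤ k + 3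
  have hrr : ∀ j u, u + row v j + row v j = u := by
    intro j u
    rw [add_assoc, add_self_eq, add_zero]
  -- the low part vanishes on the rectangles
  have hvan : ∀ (j : Fin m) (x : XX n b) (y : YY n b), ∑ l, x (v j l) (y (v j l)) ≠ e j →
      ∑ u ∈ U j, c u * Phi F u x y = 0 := by
    intro j x y hxy
    have h1 : ∑ u ∈ U j, c u * Phi F u x y =
        ∑ u ∈ U j, c (u + row v j) * Phi F (u + row v j) x y := by
      refine Finset.sum_nbij' (fun u => u + row v j) (fun u => u + row v j) ?_ ?_ ?_ ?_ ?_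
      · intro u hu
        have h2 := (mem_filter.1 hu).2
        exact mem_filter.2 ⟨mem_univ _, h2.2, by rw [hrr]; exact h2.1⟩
      · intro u hu
        have h2 := (mem_filter.1 hu).2
        exact mem_filter.2 ⟨mem_univ _, h2.2, by rw [hrr]; exact h2.1⟩
      · intro u _
        exact hrr j u
      · intro u _
        exact hrr j u
      · intro u _
        simp only [hrr]
    have h2 : ∀ u ∈ U j, c (u + row v j) * Phi F (u + row v j) x y = - (c u * Phi F u x y) := by
      intro u hu
      have h3 := (mem_filter.1 hu).2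
      have h4 : c (u + row v j) = sg F (e j) * c u := by
        have h5 := hE j (u + 1) h3.1
        have h6 : u + 1 + row v j = u + row v j + 1 := by ring
        rw [h6] at h5
        exact h5
      have h5 : sg F (∑ l, x (v j l) (y (v j l))) = - sg F (e j) := by
        have h6 : ∀ a c : ZMod 2, a ≠ c → a = c + 1 := by decide
        rw [h6 _ _ hxy, sg_add, sg_one]
        ring
      rw [h4, phi_add_row, h5]
      calc sg F (e j) * c u * (Phi F u x y * - sg F (e j))
          = - (c u * Phi F u x y) * (sg F (e j) * sg F (e j)) := by ring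
        _ = _ := by rw [sg_mul_self, mul_one]
    rw [sum_congr rfl h2, sum_neg_distrib] at h1
    have h3 : (2 : F) * ∑ u ∈ U j, c u * Phi F u x y = 0 := by
      calc (2 : F) * ∑ u ∈ U j, c u * Phi F u x y
          = ∑ u ∈ U j, c u * Phi F u x y + ∑ u ∈ U j, c u * Phi F u x y := by ring
        _ = - ∑ u ∈ U j, c u * Phi F u x y + ∑ u ∈ U j, c u * Phi F u x y := by rw [← h1]
        _ = 0 := by ring
    exact (mul_eq_zero.1 h3).resolve_left htwo
  -- the decomposition of the matrix
  have hdec : (∑ u, Matrix.of fun (x : XX n b) (y : YY n b) => c u * Phi F u x y) =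
      ∑ i, ∑ u ∈ (U (jj i))ᶜ, Matrix.of fun (x : XX n b) (y : YY n b) =>
        c u * Phi F u x y * (f i x * g i y) := by
    ext x y
    simp only [Matrix.sum_apply, Matrix.of_apply]
    calc ∑ u, c u * Phi F u x y = (∑ u, c u * Phi F u x y) * ∑ i, f i x * g i y := by
          rw [hsum, mul_one]
      _ = ∑ i, (∑ u, c u * Phi F u x y) * (f i x * g i y) := by rw [mul_sum]
      _ = ∑ i, ∑ u ∈ (U (jj i))ᶜ, c u * Phi F u x y * (f i x * g i y) := by
          refine sum_congr rfl fun i _ => ?_
          rw [← sum_mul]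
          by_cases h : f i x * g i y = 0
          · rw [h, mul_zero, mul_zero]
          · rw [← sum_add_sum_compl (U (jj i)), hvan (jj i) x y (hrect i x y h), zero_add]
  have hwt : ∀ j, ∀ u ∈ (U j)ᶜ, wt u ≤ n - (k + 1) := by
    intro j u hu
    rw [mem_compl, mem_filter] at hu
    have h1 : ¬ (wt (u + 1) ≤ k + 3 ∧ wt (u + row v j + 1) ≤ k + 3) := fun h => hu ⟨mem_univ _, h⟩
    have h2 := wt_add_one u
    have h3 : wt (u + row v j + 1) ≤ wt (u + 1) + 3 := by
      have h4 : u + row v j + 1 = (u + 1) + row v j := by ring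
      rw [h4]
      exact (wt_add _ _).trans (Nat.add_le_add_left (wt_row v j) _)
    by_contra hcon
    apply h1
    constructor <;> omega
  have h1 := rank_all (b := b) c hc1 htwo
  rw [hdec] at h1
  have h2 : (∑ i, ∑ u ∈ (U (jj i))ᶜ, Matrix.of fun (x : XX n b) (y : YY n b) =>
        c u * Phi F u x y * (f i x * g i y)).rank ≤ Fintype.card ι * (2 ^ n * b ^ (n - (k + 1))) := by
    refine (rank_sum_le _ _).trans ?_
    rw [← smul_eq_mul, ← card_univ, ← sum_const]
    refine sum_le_sum fun i _ => (rank_sum_le _ _).trans ?_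
    calc ∑ u ∈ (U (jj i))ᶜ, (Matrix.of fun (x : XX n b) (y : YY n b) =>
          c u * Phi F u x y * (f i x * g i y)).rank
        ≤ ∑ _u ∈ (U (jj i))ᶜ, b ^ (n - (k + 1)) := by
          refine sum_le_sum fun u hu => (rank_phi u (c u) (f i) (g i)).trans ?_
          exact Nat.pow_le_pow_right hb (hwt (jj i) u hu)
      _ ≤ 2 ^ n * b ^ (n - (k + 1)) := by
          rw [sum_const, smul_eq_mul]
          refine Nat.mul_le_mul_right _ ((card_le_univ _).trans ?_)
          rw [Fintype.card_fun, ZMod.card, Fintype.card_fin]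
  have h3 := h1.trans h2
  have h4 : b ^ n = b ^ (k + 1) * b ^ (n - (k + 1)) := by
    rw [← pow_add]
    congr 1
    omega
  rw [h4, ← mul_assoc] at h3
  exact Nat.le_of_mul_le_mul_right h3 (by positivity)

end Pool.Agent.V8H43.MS
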