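import Pool.Agent.V8H43.MS.Defs

set_option autoImplicit false

/-!
# The decompositions given by span programs and by formulas
-/

namespace Pool.Agent.V8H43.MS

open Finset
open Pool.Agent.V8H43.GE

/-- A span program which separates two families of formulas. -/
theorem span_dec {F : Type} [Field F] {m s d : ℕ} (P : SpanProgram F m s d) {A B : Type}
    (G : A → Formula m) (H : B → Formula m) (hG : ∀ x, P.Accepts (G x))
    (hH : ∀ y, ¬ P.Accepts (H y)) :
    ∃ (f : Fin s → A → F) (g : Fin s → B → F), (∀ x y, ∑ i, f i x * g i y = 1) ∧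
      ∀ i x y, f i x * g i y ≠ 0 →
        (P.lab i).2 ∉ G x (P.lab i).1 ∧ (P.lab i).2 ∈ H y (P.lab i).1 := by
  classical
  have h1 : ∀ x, ∃ c : Fin s → F, ∑ i, c i • P.vec i = P.target ∧
      ∀ i, c i ≠ 0 → (P.lab i).2 ∉ G x (P.lab i).1 := by
    intro x
    obtain ⟨l, hl, hx⟩ := (Finsupp.mem_span_image_iff_linearCombination F).1 (hG x)
    refine ⟨l, ?_, fun i hi => ?_⟩
    · rw [← hx, Finsupp.linearCombination_apply, Finsupp.sum_fintype]
      intro i
      rw [zero_smul]
    · have h2 := (Finsupp.mem_supported F l).1 hl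
      exact h2 (Finset.mem_coe.2 (Finsupp.mem_support_iff.2 hi))
  have h2 : ∀ y, ∃ φ : (Fin d → F) →ₗ[F] F, φ P.target = 1 ∧
      ∀ i, φ (P.vec i) ≠ 0 → (P.lab i).2 ∈ H y (P.lab i).1 := by
    intro y
    obtain ⟨φ, hφ, hker⟩ := LinearMap.exists_extend_of_notMem
      (0 : (Submodule.span F (P.vec '' {i | (P.lab i).2 ∉ H y (P.lab i).1})) →ₗ[F] F) (hH y) 1
    refine ⟨φ, hker, fun i hi => ?_⟩
    by_contra hcon
    apply hi
    have h3 : P.vec i ∈ Submodule.span F (P.vec '' {i | (P.lab i).2 ∉ H y (P.lab i).1}) :=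
      Submodule.subset_span ⟨i, hcon, rfl⟩
    have h4 := LinearMap.congr_fun hφ ⟨P.vec i, h3⟩
    simpa using h4
  choose c hc1 hc2 using h1
  choose φ hφ1 hφ2 using h2
  refine ⟨fun i x => c x i, fun i y => φ y (P.vec i), fun x y => ?_, fun i x y h => ?_⟩
  · have h3 := congrArg (φ y) (hc1 x)
    rw [map_sum, hφ1] at h3
    rw [← h3]
    refine sum_congr rfl fun i _ => ?_
    rw [map_smul, smul_eq_mul]
  · exact ⟨hc2 x i (left_ne_zero_of_mul h), hφ2 y i (right_ne_zero_of_mul h)⟩

open Classical in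
/-- The decomposition given by a monotone formula. -/
theorem formula_dec (F : Type) [Field F] {m : ℕ} (p : MonoFormula m) :
    ∃ (f : Fin p.leaves → Formula m → F) (g : Fin p.leaves → Formula m → F)
      (lab : Fin p.leaves → Fin m × (Fin 3 → ZMod 2)),
      (∀ Φ Ψ, p.Accepts Φ → ¬ p.Accepts Ψ → ∑ i, f i Φ * g i Ψ = 1) ∧
      ∀ i Φ Ψ, p.Accepts Φ → ¬ p.Accepts Ψ → f i Φ * g i Ψ ≠ 0 →
        (lab i).2 ∉ Φ (lab i).1 ∧ (lab i).2 ∈ Ψ (lab i).1 := by
  induction p with
  | absent j σ =>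
    refine ⟨fun _ _ => 1, fun _ _ => 1, fun _ => (j, σ), fun Φ Ψ _ _ => ?_, fun i Φ Ψ h1 h2 _ => ?_⟩
    · show ∑ _i : Fin 1, (1 : F) * 1 = 1
      simp
    · exact ⟨h1, not_not.1 h2⟩
  | and p q ihp ihq =>
    obtain ⟨f, g, lab, h1, h2⟩ := ihp
    obtain ⟨f', g', lab', h1', h2'⟩ := ihq
    refine ⟨Fin.append f f', Fin.append (fun i Ψ => if p.Accepts Ψ then 0 else g i Ψ)
      (fun i Ψ => if p.Accepts Ψ then g' i Ψ else 0), Fin.append lab lab', ?_, ?_⟩
    · intro Φ Ψ hΦ hΨ
      show ∑ i : Fin (p.leaves + q.leaves), _ = (1 : F)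
      rw [Fin.sum_univ_add]
      simp only [Fin.append_left, Fin.append_right]
      by_cases h : p.Accepts Ψ
      · simp only [h, if_true, mul_zero, sum_const_zero, zero_add]
        exact h1' Φ Ψ hΦ.2 fun h' => hΨ ⟨h, h'⟩
      · simp only [h, if_false, mul_zero, sum_const_zero, add_zero]
        exact h1 Φ Ψ hΦ.1 h
    · intro i
      refine Fin.addCases (fun i => ?_) (fun i => ?_) i
      · intro Φ Ψ hΦ hΨ hne
        simp only [Fin.append_left] at hne ⊢
        by_cases h : p.Accepts Ψ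
        · rw [if_pos h, mul_zero] at hne
          exact absurd rfl hne
        · rw [if_neg h] at hne
          exact h2 i Φ Ψ hΦ.1 h hne
      · intro Φ Ψ hΦ hΨ hne
        simp only [Fin.append_right] at hne ⊢
        by_cases h : p.Accepts Ψ
        · rw [if_pos h] at hne
          exact h2' i Φ Ψ hΦ.2 (fun h' => hΨ ⟨h, h'⟩) hne
        · rw [if_neg h, mul_zero] at hne
          exact absurd rfl hne
  | or p q ihp ihq =>
    obtain ⟨f, g, lab, h1, h2⟩ := ihp
    obtain ⟨f', g', lab', h1', h2'⟩ := ihq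
    refine ⟨Fin.append (fun i Φ => if p.Accepts Φ then f i Φ else 0)
      (fun i Φ => if p.Accepts Φ then 0 else f' i Φ), Fin.append g g', Fin.append lab lab', ?_, ?_⟩
    · intro Φ Ψ hΦ hΨ
      show ∑ i : Fin (p.leaves + q.leaves), _ = (1 : F)
      rw [Fin.sum_univ_add]
      simp only [Fin.append_left, Fin.append_right]
      by_cases h : p.Accepts Φ
      · simp only [h, if_true, zero_mul, sum_const_zero, add_zero]
        exact h1 Φ Ψ h fun h' => hΨ (Or.inl h')
      · simp only [h, if_false, zero_mul, sum_const_zero, zero_add]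
        exact h1' Φ Ψ (hΦ.resolve_left h) fun h' => hΨ (Or.inr h')
    · intro i
      refine Fin.addCases (fun i => ?_) (fun i => ?_) i
      · intro Φ Ψ hΦ hΨ hne
        simp only [Fin.append_left] at hne ⊢
        by_cases h : p.Accepts Φ
        · rw [if_pos h] at hne
          exact h2 i Φ Ψ h (fun h' => hΨ (Or.inl h')) hne
        · rw [if_neg h, zero_mul] at hne
          exact absurd rfl hne
      · intro Φ Ψ hΦ hΨ hne
        simp only [Fin.append_right] at hne ⊢
        by_cases h : p.Accepts Φ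
        · rw [if_pos h, zero_mul] at hne
          exact absurd rfl hne
        · rw [if_neg h] at hne
          exact h2' i Φ Ψ (hΦ.resolve_left h) (fun h' => hΨ (Or.inr h')) hne

end Pool.Agent.V8H43.MS
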