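import Pool.Agent.V8H43.MS.Base
import Pool.Agent.V8H43.MS.Core
import Pool.Agent.V8H43.MS.Models
import Pool.Agent.V8H43.GE.Inst

set_option autoImplicit false

/-!
# Monotone span programs for the gap problem
-/

namespace Pool.Agent.V8H43.MS

open Finset
open Pool.Agent.W888.GX (mu)
open Pool.Agent.V8H43.GE

section inst

variable {n m b N M : ℕ}

/-- the formula of all the clauses which `x` satisfies -/
def maxf (V : Fin M → Fin 3 → Fin N) (x : Fin N → ZMod 2) : Formula M :=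
  fun t => univ.filter fun σ => ∃ l, x (V t l) = σ l

theorem satisfiable_maxf (V : Fin M → Fin 3 → Fin N) (x : Fin N → ZMod 2) :
    Satisfiable V (maxf V x) := by
  refine ⟨x, ?_⟩
  unfold falsified
  refine sum_eq_zero fun t _ => ?_
  rw [card_eq_zero, filter_eq_empty_iff]
  intro σ hσ h
  obtain ⟨l, hl⟩ := (mem_filter.1 hσ).2
  exact h l hl

/-- the triples of the large system: `(j, π)` has the variables `(v j l, π l)` -/
def bigV (v : Fin m → Fin 3 → Fin n) (ε : Fin M ≃ Fin m × (Fin 3 → Fin b))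
    (κ : Fin n × Fin b → Fin N) : Fin M → Fin 3 → Fin N :=
  fun t l => κ (v (ε t).1 l, (ε t).2 l)

open Classical in
/-- the equations `e` on the variables `(i, y i)` -/
noncomputable def selF (v : Fin m → Fin 3 → Fin n) (e : Fin m → ZMod 2)
    (ε : Fin M ≃ Fin m × (Fin 3 → Fin b)) (y : Fin n → Fin b) : Formula M :=
  fun t => if (ε t).2 = fun l => y (v (ε t).1 l) then xf e (ε t).1 else ∅

theorem sum_big {α : Type} [AddCommMonoid α] (ε : Fin M ≃ Fin m × (Fin 3 → Fin b))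
    (φ : Fin m → (Fin 3 → Fin b) → α) :
    ∑ t, φ (ε t).1 (ε t).2 = ∑ j, ∑ π, φ j π := by
  rw [← Fintype.sum_prod_type' φ]
  exact Fintype.sum_equiv ε _ _ fun t => rfl

theorem size_selF (v : Fin m → Fin 3 → Fin n) (e : Fin m → ZMod 2)
    (ε : Fin M ≃ Fin m × (Fin 3 → Fin b)) (y : Fin n → Fin b) : size (selF v e ε y) = 4 * m := by
  classical
  unfold size selF
  rw [sum_big ε (fun j π => (if π = fun l => y (v j l) then xf e j else ∅ :
    Finset (Fin 3 → ZMod 2)).card), ← size_xf e]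
  unfold size
  refine sum_congr rfl fun j _ => ?_
  rw [sum_eq_single (fun l => y (v j l))]
  · rw [if_pos rfl]
  · intro π _ hπ
    rw [if_neg hπ, card_empty]
  · intro h
    exact absurd (mem_univ _) h

theorem falsified_selF (v : Fin m → Fin 3 → Fin n) (e : Fin m → ZMod 2)
    (ε : Fin M ≃ Fin m × (Fin 3 → Fin b)) (κ : Fin n × Fin b → Fin N) (y : Fin n → Fin b)
    (x : Fin N → ZMod 2) :
    falsified (bigV v ε κ) (selF v e ε y) x = falsified v (xf e) (fun i => x (κ (i, y i))) := by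
  classical
  unfold falsified selF bigV
  rw [sum_big ε (fun j π => ((if π = fun l => y (v j l) then xf e j else ∅ :
    Finset (Fin 3 → ZMod 2)).filter fun σ => ∀ l, x (κ (v j l, π l)) ≠ σ l).card)]
  refine sum_congr rfl fun j _ => ?_
  rw [sum_eq_single (fun l => y (v j l))]
  · rw [if_pos rfl]
  · intro π _ hπ
    rw [if_neg hπ, filter_empty, card_empty]
  · intro h
    exact absurd (mem_univ _) h

theorem far_selF (v : Fin m → Fin 3 → Fin n) (e : Fin m → ZMod 2) (ρ : ℝ) (hm : 1 ≤ m)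
    (he : ∀ x : Fin n → ZMod 2, (1 / 2 - ρ) * m ≤
      ((univ.filter fun j => ∑ l, x (v j l) ≠ e j).card : ℝ))
    (ε : Fin M ≃ Fin m × (Fin 3 → Fin b)) (κ : Fin n × Fin b → Fin N) (y : Fin n → Fin b) :
    Far (bigV v ε κ) (1 / 8 - ρ / 4) (selF v e ε y) := by
  refine ⟨by rw [size_selF]; omega, fun x => ?_⟩
  rw [size_selF, falsified_selF, falsified_xf]
  have h1 := he (fun i => x (κ (i, y i)))
  have h2 : (1 / 8 - ρ / 4) * ((4 * m : ℕ) : ℝ) = (1 / 2 - ρ) * m := by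
    push_cast
    ring
  rw [h2]
  exact h1

/-- the rectangles -/
theorem rect (v : Fin m → Fin 3 → Fin n) (e : Fin m → ZMod 2)
    (ε : Fin M ≃ Fin m × (Fin 3 → Fin b)) (κ : Fin n × Fin b → Fin N)
    (hκ : Function.Injective κ) (x : XX n b) (y : YY n b) (t : Fin M) (σ : Fin 3 → ZMod 2)
    (h1 : σ ∉ maxf (bigV v ε κ) (Function.extend κ (fun p => x p.1 p.2) 0) t)
    (h2 : σ ∈ selF v e ε y t) :
    ∑ l, x (v (ε t).1 l) (y (v (ε t).1 l)) ≠ e (ε t).1 := by
  classical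
  unfold selF at h2
  split_ifs at h2 with h3
  · unfold xf at h2
    rw [mem_filter] at h2
    have h4 : ∀ l, x (v (ε t).1 l) (y (v (ε t).1 l)) = σ l + 1 := by
      intro l
      have h5 : ¬ Function.extend κ (fun p => x p.1 p.2) 0 (bigV v ε κ t l) = σ l := by
        intro h6
        exact h1 (mem_filter.2 ⟨mem_univ _, l, h6⟩)
      unfold bigV at h5
      rw [hκ.extend_apply] at h5
      rw [h3] at h5
      have : ∀ a b : ZMod 2, ¬ a = b → a = b + 1 := by decide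
      exact this _ _ h5
    simp only [h4]
    exact h2.2
  · exact absurd h2 (notMem_empty _)

end inst

/-- The main theorem. -/
theorem main (ρ : ℝ) (hρ : 0 < ρ) : ∃ Δ C : ℕ, 1 ≤ Δ ∧ 1 ≤ C ∧ ∀ N : ℕ, C ≤ N →
    ∃ (M : ℕ) (V : Fin M → Fin 3 → Fin N), 1 ≤ M ∧ M ≤ Δ * N ∧
      (∀ t, Function.Injective (V t)) ∧
      (∀ (F : Type) [Field F], (2 : F) ≠ 0 → ∀ (s d : ℕ) (P : SpanProgram F M s d),
        (∀ Φ, Satisfiable V Φ → P.Accepts Φ) → (∀ Φ, Far V (1 / 8 - ρ) Φ → ¬ P.Accepts Φ) →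
        (2 : ℝ) ^ ((N : ℝ) / C) ≤ s) ∧
      (∀ p : MonoFormula M,
        (∀ Φ, Satisfiable V Φ → p.Accepts Φ) → (∀ Φ, Far V (1 / 8 - ρ) Φ → ¬ p.Accepts Φ) →
        (2 : ℝ) ^ ((N : ℝ) / C) ≤ p.leaves) := by
  classical
  obtain ⟨Δ, K, hΔ, hK, hbase⟩ := base3 ρ hρ
  obtain ⟨b, hb⟩ : ∃ b, b = 4 ^ (8 * K) := ⟨_, rfl⟩
  have hb1 : 1 ≤ b := by
    rw [hb]
    exact Nat.one_le_pow _ _ (by norm_num)
  refine ⟨Δ * b ^ 2, (52 * K + 2) * b, Nat.mul_pos hΔ (by positivity), Nat.mul_pos (by omega) hb1,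
    fun N hN => ?_⟩
  obtain ⟨n, hn⟩ : ∃ n, n = N / b := ⟨_, rfl⟩
  have hnb : n * b ≤ N := by
    rw [hn]
    exact Nat.div_mul_le_self N b
  have hn52 : 52 * K + 2 ≤ n := by
    rw [hn, Nat.le_div_iff_mul_le hb1]
    exact hN
  have hNn : N < (n + 1) * b := by
    rw [hn]
    exact Nat.lt_mul_of_div_lt (Nat.lt_succ_self _) hb1
  obtain ⟨m, v, e, hm1, hmn, hinj, hexp, hgap⟩ := hbase n (by omega)
  obtain ⟨r, hr⟩ : ∃ r, r = n / (2 * K) := ⟨_, rfl⟩
  have hrn : r * (2 * K) ≤ n := by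
    rw [hr]
    exact Nat.div_mul_le_self n _
  have hrn2 : n < (r + 1) * (2 * K) := by
    rw [hr]
    exact Nat.lt_mul_of_div_lt (Nat.lt_succ_self _) (by omega)
  have hr26 : 26 ≤ r := by
    rw [hr, Nat.le_div_iff_mul_le (by omega)]
    omega
  obtain ⟨k, hk⟩ : ∃ k, k = (r - 13) / 2 := ⟨_, rfl⟩
  have hk1 : 2 * (k + 3) + 7 ≤ r := by omega
  have hk2 : r ≤ 2 * k + 14 := by omega
  have hk3 : n ≤ 8 * K * (k + 1) := by
    -- n < (r+1) 2K ≤ (2k+15) 2K ≤ 8K(k+1) if 4k+30 ≤ 8k+8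
    have h1 : n ≤ (2 * k + 15) * (2 * K) :=
      hrn2.le.trans (Nat.mul_le_mul_right _ (by omega))
    have h2 : 6 ≤ k := by omega
    calc n ≤ (2 * k + 15) * (2 * K) := h1
      _ ≤ (4 * (k + 1)) * (2 * K) := Nat.mul_le_mul_right _ (by omega)
      _ = 8 * K * (k + 1) := by ring
  have hkn : k < n := by
    have h1 : r ≤ r * (2 * K) := Nat.le_mul_of_pos_right r (by omega)
    omega
  have hv : ∀ h : Fin m → ZMod 2, wt h ≤ 2 * r → wt h ≤ 2 * wt (col v h) := by
    intro h hh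
    refine wt_col v (2 * r) (fun J hJ hJr => hexp J hJ ?_) h hh
    calc K * J.card ≤ K * (2 * r) := Nat.mul_le_mul_left _ hJr
      _ = r * (2 * K) := by ring
      _ ≤ n := hrn
  obtain ⟨M, hM⟩ : ∃ M, M = m * b ^ 3 := ⟨_, rfl⟩
  obtain ⟨ε⟩ : Nonempty (Fin M ≃ Fin m × (Fin 3 → Fin b)) := by
    refine ⟨Fintype.equivOfCardEq ?_⟩
    rw [Fintype.card_prod, Fintype.card_fun, Fintype.card_fin, Fintype.card_fin, Fintype.card_fin,
      Fintype.card_fin, hM]
  obtain ⟨κ, hκ⟩ : ∃ κ : Fin n × Fin b → Fin N, Function.Injective κ := by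
    refine ⟨fun p => Fin.castLE hnb (finProdFinEquiv p), ?_⟩
    intro p q hpq
    exact finProdFinEquiv.injective (Fin.castLE_injective hnb hpq)
  have hcount : ∀ s : ℕ, b ^ (k + 1) ≤ s * 2 ^ n →
      (2 : ℝ) ^ ((N : ℝ) / ((((52 * K + 2) * b : ℕ)) : ℝ)) ≤ s := by
    intro s hs
    have h1 : 4 ^ n ≤ b ^ (k + 1) := by
      rw [hb, ← pow_mul]
      exact Nat.pow_le_pow_right (by norm_num) hk3
    have h2 : 2 ^ n ≤ s := by
      have h3 : 2 ^ n * 2 ^ n ≤ s * 2 ^ n := by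
        calc 2 ^ n * 2 ^ n = 4 ^ n := by
              rw [← mul_pow]
              norm_num
          _ ≤ b ^ (k + 1) := h1
          _ ≤ _ := hs
      exact Nat.le_of_mul_le_mul_right h3 (by positivity)
    have h3 : (N : ℝ) / ((((52 * K + 2) * b : ℕ)) : ℝ) ≤ n := by
      have h4 : N ≤ n * ((52 * K + 2) * b) := by
        calc N ≤ (n + 1) * b := hNn.le
          _ ≤ (n * (52 * K + 2)) * b := by
              refine Nat.mul_le_mul_right _ ?_
              have : n * 2 ≤ n * (52 * K + 2) := Nat.mul_le_mul_left _ (by omega)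
              omega
          _ = _ := by ring
      have h5 : (0 : ℝ) < (((52 * K + 2) * b : ℕ) : ℝ) := by
        have : 0 < (52 * K + 2) * b := Nat.mul_pos (by omega) hb1
        exact_mod_cast this
      rw [div_le_iff₀ h5]
      exact_mod_cast h4
    calc (2 : ℝ) ^ ((N : ℝ) / ((((52 * K + 2) * b : ℕ)) : ℝ)) ≤ (2 : ℝ) ^ (n : ℝ) :=
          Real.rpow_le_rpow_of_exponent_le (by norm_num) h3
      _ = ((2 ^ n : ℕ) : ℝ) := by
          rw [Real.rpow_natCast]
          push_cast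
          rfl
      _ ≤ s := by exact_mod_cast h2
  have hfar : ∀ y, Far (bigV v ε κ) (1 / 8 - ρ) (selF v e ε y) := by
    intro y
    obtain ⟨h1, h2⟩ := far_selF v e ρ hm1 hgap ε κ y
    refine ⟨h1, fun x => le_trans ?_ (h2 x)⟩
    refine mul_le_mul_of_nonneg_right ?_ (Nat.cast_nonneg _)
    linarith
  refine ⟨M, bigV v ε κ, ?_, ?_, ?_, ?_, ?_⟩
  · rw [hM]
    exact Nat.mul_pos hm1 (by positivity)
  · calc M = m * b ^ 3 := hM
      _ ≤ (Δ * n) * b ^ 3 := Nat.mul_le_mul_right _ hmn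
      _ = Δ * b ^ 2 * (n * b) := by ring
      _ ≤ Δ * b ^ 2 * N := Nat.mul_le_mul_left _ hnb
  · intro t l l' h
    have h1 := hκ h
    exact hinj _ (Prod.ext_iff.1 h1).1
  · intro F _ htwo s d P hsat hrej
    obtain ⟨f, g, h1, h2⟩ := span_dec P
      (fun x : XX n b => maxf (bigV v ε κ) (Function.extend κ (fun p => x p.1 p.2) 0))
      (fun y : YY n b => selF v e ε y) (fun x => hsat _ (satisfiable_maxf _ _))
      (fun y => hrej _ (hfar y))
    refine hcount s ?_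
    have h3 := core htwo v e r k hk1 hv hkn hb1 f g (fun i => (ε (P.lab i).1).1) h1
      (fun i x y hne => rect v e ε κ hκ x y (P.lab i).1 (P.lab i).2 (h2 i x y hne).1
        (h2 i x y hne).2)
    rwa [Fintype.card_fin] at h3
  · intro p hsat hrej
    obtain ⟨f, g, lab, h1, h2⟩ := formula_dec ℝ p
    refine hcount p.leaves ?_
    have h3 := core (F := ℝ) two_ne_zero v e r k hk1 hv hkn hb1
      (fun i (x : XX n b) => f i (maxf (bigV v ε κ) (Function.extend κ (fun p => x p.1 p.2) 0)))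
      (fun i (y : YY n b) => g i (selF v e ε y)) (fun i => (ε (lab i).1).1)
      (fun x y => h1 _ _ (hsat _ (satisfiable_maxf _ _)) (hrej _ (hfar y)))
      (fun i x y hne => by
        have h4 := h2 i _ _ (hsat _ (satisfiable_maxf _ _)) (hrej _ (hfar y)) hne
        exact rect v e ε κ hκ x y (lab i).1 (lab i).2 h4.1 h4.2)
    rwa [Fintype.card_fin] at h3

end Pool.Agent.V8H43.MS
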