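import Pool.Agent.V8H43.GE.Defs

set_option autoImplicit false

/-!
# Monotone span programs and monotone formulas over the clauses of a 3-CNF
-/

namespace Pool.Agent.V8H43.MS

open Pool.Agent.V8H43.GE

/-- A monotone span program of size `s` over the field `F`: `s` vectors in `F ^ d`, each labelled with
a clause (a triple `j`, and the signs `σ` of the three literals), and a target vector. -/
structure SpanProgram (F : Type) [Field F] (m s d : ℕ) where
  /-- the vectors -/
  vec : Fin s → Fin d → F
  /-- the labels -/
  lab : Fin s → Fin m × (Fin 3 → ZMod 2)
  /-- the target -/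
  target : Fin d → F

/-- The program accepts a formula if the target is a linear combination of the vectors whose clauses
do not occur in the formula. -/
def SpanProgram.Accepts {F : Type} [Field F] {m s d : ℕ} (P : SpanProgram F m s d)
    (Φ : Formula m) : Prop :=
  P.target ∈ Submodule.span F (P.vec '' {i | (P.lab i).2 ∉ Φ (P.lab i).1})

/-- A monotone formula in the literals `the clause with the signs σ on the triple j does not
occur`. -/
inductive MonoFormula (m : ℕ) : Type
  | absent : Fin m → (Fin 3 → ZMod 2) → MonoFormula m
  | and : MonoFormula m → MonoFormula m → MonoFormula m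
  | or : MonoFormula m → MonoFormula m → MonoFormula m

/-- The value of a monotone formula. -/
def MonoFormula.Accepts {m : ℕ} : MonoFormula m → Formula m → Prop
  | absent j σ, Φ => σ ∉ Φ j
  | and p q, Φ => p.Accepts Φ ∧ q.Accepts Φ
  | or p q, Φ => p.Accepts Φ ∨ q.Accepts Φ

/-- The number of the leaves. -/
def MonoFormula.leaves {m : ℕ} : MonoFormula m → ℕ
  | absent _ _ => 1
  | and p q => p.leaves + q.leaves
  | or p q => p.leaves + q.leaves

end Pool.Agent.V8H43.MS
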