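import Pool.Agent.W888.GX.Sys

set_option autoImplicit false

/-!
# Signs of the short combinations of the equations
-/

namespace Pool.Agent.V8H43.MS

open Finset
open Pool.Agent.W888.GX (mu row)

/-- the sign of a bit in a field -/
def sg (F : Type) [Ring F] (a : ZMod 2) : F := if a = 0 then 1 else -1

section sign

variable {F : Type} [CommRing F]

theorem sg_zero : sg F 0 = 1 := by simp [sg]

theorem sg_one : sg F 1 = -1 := by simp [sg]

theorem sg_add (a b : ZMod 2) : sg F (a + b) = sg F a * sg F b := by
  have h : ∀ a : ZMod 2, a = 0 ∨ a = 1 := by decide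
  unfold sg
  rcases h a with rfl | rfl <;> rcases h b with rfl | rfl
  · simp
  · simp
  · simp
  · rw [if_pos (by decide : (1 : ZMod 2) + 1 = 0), if_neg (by decide)]
    ring

theorem sg_mul_self (a : ZMod 2) : sg F a * sg F a = 1 := by
  rw [← sg_add]
  have : a + a = 0 := by
    revert a
    decide
  rw [this, sg_zero]

theorem sg_sum {ι : Type} (s : Finset ι) (f : ι → ZMod 2) :
    sg F (∑ i ∈ s, f i) = ∏ i ∈ s, sg F (f i) := by
  classical
  induction s using Finset.induction_on with
  | empty => simp [sg_zero]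
  | insert a s ha ih => rw [sum_insert ha, prod_insert ha, sg_add, ih]

end sign

/-- the number of the nonzero entries -/
def wt {N : ℕ} (w : Fin N → ZMod 2) : ℕ := (univ.filter fun i => w i ≠ 0).card

theorem wt_zero {N : ℕ} : wt (0 : Fin N → ZMod 2) = 0 := by
  simp [wt]

theorem wt_add {N : ℕ} (w w' : Fin N → ZMod 2) : wt (w + w') ≤ wt w + wt w' := by
  unfold wt
  refine le_trans (card_le_card ?_) (card_union_le _ _)
  intro i hi
  rw [mem_filter] at hi
  rw [mem_union, mem_filter, mem_filter]
  by_contra hcon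
  push Not at hcon
  have h1 := hcon.1 (mem_univ i)
  have h2 := hcon.2 (mem_univ i)
  apply hi.2
  rw [Pi.add_apply, h1, h2, add_zero]

theorem wt_single {N : ℕ} (j : Fin N) : wt (Pi.single j (1 : ZMod 2) : Fin N → ZMod 2) ≤ 1 := by
  unfold wt
  refine (card_le_card (t := {j}) ?_).trans (by simp)
  intro i hi
  rw [mem_filter] at hi
  rw [mem_singleton]
  by_contra h
  exact hi.2 (Pi.single_eq_of_ne h _)

theorem add_self_eq {N : ℕ} (w : Fin N → ZMod 2) : w + w = 0 := by
  funext i
  have : ∀ a : ZMod 2, a + a = 0 := by decide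
  exact this _

variable {n m : ℕ}

/-- the combination of the rows -/
def col (v : Fin m → Fin 3 → Fin n) (h : Fin m → ZMod 2) : Fin n → ZMod 2 :=
  fun i => ∑ j, h j * row v j i

theorem col_add (v : Fin m → Fin 3 → Fin n) (h h' : Fin m → ZMod 2) :
    col v (h + h') = col v h + col v h' := by
  funext i
  unfold col
  simp only [Pi.add_apply, add_mul, sum_add_distrib]

theorem col_single (v : Fin m → Fin 3 → Fin n) (j : Fin m) :
    col v (Pi.single j 1) = row v j := by
  funext i
  unfold col
  rw [sum_eq_single j]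
  · rw [Pi.single_eq_same, one_mul]
  · intro j' _ hj'
    rw [Pi.single_eq_of_ne hj', zero_mul]
  · intro h
    exact absurd (mem_univ _) h

theorem wt_row (v : Fin m → Fin 3 → Fin n) (j : Fin m) : wt (row v j) ≤ 3 := by
  unfold wt
  refine (card_le_card (t := univ.image (v j)) ?_).trans (card_image_le.trans (by simp))
  intro i hi
  rw [mem_filter] at hi
  rw [mem_image]
  by_contra hcon
  push Not at hcon
  apply hi.2
  unfold row
  exact sum_eq_zero fun l _ => if_neg (hcon l (mem_univ l))

/-- expansion for vectors -/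
theorem wt_col (v : Fin m → Fin 3 → Fin n) (r : ℕ)
    (hv : ∀ J : Finset (Fin m), J.Nonempty → J.card ≤ r →
      J.card ≤ 2 * (univ.filter fun i => mu v J i = 1).card)
    (h : Fin m → ZMod 2) (hr : wt h ≤ r) : wt h ≤ 2 * wt (col v h) := by
  rcases (univ.filter fun j => h j ≠ 0).eq_empty_or_nonempty with he | hne
  · unfold wt
    rw [he, card_empty]
    exact Nat.zero_le _
  · refine (hv _ hne hr).trans (Nat.mul_le_mul_left _ (card_le_card ?_))
    intro i hi
    rw [mem_filter] at hi ⊢
    refine ⟨mem_univ _, ?_⟩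
    have h1 := Pool.Agent.W888.GX.rs_eq v h i
    rw [hi.2] at h1
    have h2 : Pool.Agent.W888.GX.rs (row v) h i = col v h i := rfl
    rw [← h2, h1]
    decide

open Classical in
/-- The signs of the short combinations. -/
theorem exists_design (F : Type) [CommRing F] (v : Fin m → Fin 3 → Fin n) (e : Fin m → ZMod 2)
    (r k : ℕ) (hk : 2 * k + 7 ≤ r) (hv : ∀ h : Fin m → ZMod 2, wt h ≤ 2 * r →
      wt h ≤ 2 * wt (col v h)) :
    ∃ E : (Fin n → ZMod 2) → F, E 0 = 1 ∧ ∀ (j : Fin m) (w : Fin n → ZMod 2), wt w ≤ k →
      E (w + row v j) = sg F (e j) * E w := by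
  have huniq : ∀ h h' : Fin m → ZMod 2, wt h ≤ r → wt h' ≤ r → col v h = col v h' → h = h' := by
    intro h h' h1 h2 h3
    have h4 := hv (h + h') ((wt_add h h').trans (by omega))
    rw [col_add, h3, add_self_eq, wt_zero] at h4
    have h5 : wt (h + h') = 0 := by omega
    unfold wt at h5
    rw [card_eq_zero, filter_eq_empty_iff] at h5
    funext j
    have h6 := h5 (mem_univ j)
    push Not at h6
    have : ∀ a b : ZMod 2, a + b = 0 → a = b := by decide
    exact this _ _ h6
  let val : (Fin m → ZMod 2) → F := fun h => sg F (∑ j, h j * e j)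
  have hval : ∀ h (j : Fin m), val (h + Pi.single j 1) = sg F (e j) * val h := by
    intro h j
    have h1 : ∑ i, (h + Pi.single j 1 : Fin m → ZMod 2) i * e i = ∑ i, h i * e i + e j := by
      simp only [Pi.add_apply, add_mul, sum_add_distrib]
      congr 1
      rw [sum_eq_single j]
      · rw [Pi.single_eq_same, one_mul]
      · intro j' _ hj'
        rw [Pi.single_eq_of_ne hj', zero_mul]
      · intro h
        exact absurd (mem_univ _) h
    show sg F (∑ i, (h + Pi.single j 1 : Fin m → ZMod 2) i * e i) = _
    rw [h1, sg_add, mul_comm]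
  let E : (Fin n → ZMod 2) → F := fun w =>
    if hw : ∃ h : Fin m → ZMod 2, wt h ≤ r ∧ col v h = w then val hw.choose else 0
  have hE : ∀ h : Fin m → ZMod 2, wt h ≤ r → E (col v h) = val h := by
    intro h hr
    have hw : ∃ h' : Fin m → ZMod 2, wt h' ≤ r ∧ col v h' = col v h := ⟨h, hr, rfl⟩
    have h1 : E (col v h) = val hw.choose := dif_pos hw
    rw [h1]
    have h2 := hw.choose_spec
    rw [huniq _ _ h2.1 hr h2.2]
  have hcol0 : col v 0 = 0 := by
    funext i
    unfold col
    simp
  refine ⟨E, ?_, fun j w hw => ?_⟩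
  · have h1 := hE 0 (by rw [wt_zero]; exact Nat.zero_le _)
    rw [hcol0] at h1
    rw [h1]
    show sg F (∑ i, (0 : Fin m → ZMod 2) i * e i) = 1
    simp [sg_zero]
  · by_cases h1 : ∃ h : Fin m → ZMod 2, wt h ≤ r ∧ col v h = w
    · obtain ⟨h, hr, rfl⟩ := h1
      have h2 := hv h (by omega)
      have h3 : wt (h + Pi.single j 1) ≤ r := by
        have h4 := wt_add h (Pi.single j 1)
        have h5 := wt_single (N := m) j
        omega
      have h4 := hE _ h3
      rw [col_add, col_single] at h4
      rw [h4, hE h hr, hval]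
    · have h2 : E w = 0 := dif_neg h1
      rw [h2, mul_zero]
      refine dif_neg ?_
      rintro ⟨h, hr, hh⟩
      apply h1
      refine ⟨h + Pi.single j 1, ?_, ?_⟩
      · have h3 := hv h (by omega)
        rw [hh] at h3
        have h4 := wt_add w (row v j)
        have h5 := wt_row v j
        have h6 := wt_add h (Pi.single j 1)
        have h7 := wt_single (N := m) j
        omega
      · rw [col_add, col_single, hh, add_assoc, add_self_eq, add_zero]

end Pool.Agent.V8H43.MS
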