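import Pool.Agent.V8H43.MS.Design

set_option autoImplicit false

/-!
# The rank bound
-/

namespace Pool.Agent.V8H43.MS

open Finset Matrix
open Pool.Agent.W888.GX (mu row row_dot)

variable {F : Type} [Field F] {n m b : ℕ}

/-- The variables of the large formulas are the pairs in `Fin n × Fin b`. -/
abbrev XX (n b : ℕ) : Type := Fin n → Fin b → ZMod 2

/-- The choices of one variable in each group. -/
abbrev YY (n b : ℕ) : Type := Fin n → Fin b

/-- the character `u` of the chosen values -/
def Phi (F : Type) [Field F] (u : Fin n → ZMod 2) : Matrix (XX n b) (YY n b) F :=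
  fun x y => ∏ i, sg F (u i * x i (y i))

/-- A matrix of rank one. -/
def outer (f : XX n b → F) (g : YY n b → F) : Matrix (XX n b) (YY n b) F :=
  fun x y => f x * g y

theorem rank_add_le' {α β : Type} [Fintype α] [Fintype β] (A B : Matrix α β F) :
    (A + B).rank ≤ A.rank + B.rank := by
  unfold Matrix.rank
  have h1 : LinearMap.range (A + B).mulVecLin ≤
      LinearMap.range A.mulVecLin ⊔ LinearMap.range B.mulVecLin := by
    rintro _ ⟨x, rfl⟩
    rw [Matrix.mulVecLin_apply, Matrix.add_mulVec]
    exact Submodule.add_mem_sup ⟨x, rfl⟩ ⟨x, rfl⟩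
  exact (Submodule.finrank_mono h1).trans (Submodule.finrank_add_le_finrank_add_finrank _ _)

theorem rank_sum_le {ι α β : Type} [Fintype α] [Fintype β] (s : Finset ι)
    (A : ι → Matrix α β F) : (∑ i ∈ s, A i).rank ≤ ∑ i ∈ s, (A i).rank := by
  classical
  induction s using Finset.induction_on with
  | empty => simp
  | insert a s ha ih =>
    rw [sum_insert ha, sum_insert ha]
    exact (rank_add_le' _ _).trans (Nat.add_le_add_left ih _)

/-- A character has small rank, also after the restriction to a rectangle. -/
theorem rank_phi (u : Fin n → ZMod 2) (c : F) (f : XX n b → F) (g : YY n b → F) :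
    (Matrix.of fun x y => c * Phi F u x y * (f x * g y)).rank ≤ b ^ wt u := by
  classical
  let T := univ.filter fun i => u i ≠ 0
  let P : Matrix (XX n b) (T → Fin b) F := fun x φ => c * f x * ∏ i : T, sg F (x i (φ i))
  let Q : Matrix (T → Fin b) (YY n b) F := fun φ y => if (fun i : T => y i) = φ then g y else 0
  have h1 : (Matrix.of fun x y => c * Phi F u x y * (f x * g y)) = P * Q := by
    ext x y
    rw [Matrix.mul_apply]
    rw [sum_eq_single (fun i : T => y i)]
    · show c * Phi F u x y * (f x * g y) = c * f x * (∏ i : T, sg F (x i (y i))) *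
        (if (fun i : T => y i) = (fun i : T => y i) then g y else 0)
      rw [if_pos rfl]
      have h2 : Phi F u x y = ∏ i : T, sg F (x i (y i)) := by
        unfold Phi
        rw [← prod_subtype T (fun i => Iff.rfl) (fun i => sg F (x i (y i)))]
        rw [← prod_subset (subset_univ T)]
        · refine prod_congr rfl fun i hi => ?_
          have h3 : u i = 1 := by
            have h4 := (mem_filter.1 hi).2
            have : ∀ a : ZMod 2, a ≠ 0 → a = 1 := by decide
            exact this _ h4
          rw [h3, one_mul]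
        · intro i _ hi
          have h3 : u i = 0 := by
            by_contra h4
            exact hi (mem_filter.2 ⟨mem_univ i, h4⟩)
          rw [h3, zero_mul, sg_zero]
      rw [h2]
      ring
    · intro φ _ hφ
      show P x φ * (if (fun i : T => y i) = φ then g y else 0) = 0
      rw [if_neg (Ne.symm hφ), mul_zero]
    · intro h
      exact absurd (mem_univ _) h
  rw [h1]
  refine (Matrix.rank_mul_le_left P Q).trans ((Matrix.rank_le_card_width P).trans ?_)
  rw [Fintype.card_fun, Fintype.card_fin, Fintype.card_coe]
  exact le_rfl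

/-- one factor of the sum over `x` -/
theorem sum_factor (p q : Fin b) (a : ZMod 2) :
    ∑ x : Fin b → ZMod 2, sg F (x p) * sg F (a * x q) = if a = 1 ∧ p = q then 2 ^ b else 0 := by
  classical
  have h2 : ∀ a : ZMod 2, a = 0 ∨ a = 1 := by decide
  have hz : ∀ a : ZMod 2, a + 1 + 1 = a := by decide
  -- a shift which changes the sign
  have hshift : ∀ φ : (Fin b → ZMod 2) → F, (∀ x, φ (x + Pi.single p 1) = - φ x) →
      (2 : F) ≠ 0 → ∑ x, φ x = 0 := by
    intro φ hφ htwo
    have h3 : ∑ x, φ x = ∑ x : Fin b → ZMod 2, φ (x + Pi.single p 1) := by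
      rw [← Equiv.sum_comp (Equiv.addRight (Pi.single p (1 : ZMod 2) : Fin b → ZMod 2)) φ]
      rfl
    have h4 : ∑ x : Fin b → ZMod 2, φ (x + Pi.single p 1) = - ∑ x, φ x := by
      rw [← sum_neg_distrib]
      exact sum_congr rfl fun x _ => hφ x
    have h5 : (2 : F) * ∑ x, φ x = 0 := by
      have h6 := h3.trans h4
      calc (2 : F) * ∑ x, φ x = ∑ x, φ x + ∑ x, φ x := by ring
        _ = ∑ x, φ x + - ∑ x, φ x := by rw [← h6]
        _ = 0 := by ring
    exact (mul_eq_zero.1 h5).resolve_left htwo
  by_cases htwo : (2 : F) = 0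
  · -- characteristic two
    have hs : ∀ a : ZMod 2, sg F a = 1 := by
      intro a
      have h3 : (-1 : F) = 1 := by
        have : (1 : F) + 1 = 0 := by
          rw [← htwo]
          norm_num
        exact (eq_neg_of_add_eq_zero_left this).symm
      rcases h2 a with rfl | rfl
      · exact sg_zero
      · rw [sg_one, h3]
    have h3 : (2 : F) ^ b = 0 := by
      have hb : b ≠ 0 := by
        rintro rfl
        exact p.elim0
      rw [htwo, zero_pow hb]
    simp only [hs, mul_one, sum_const, card_univ, Fintype.card_fun, ZMod.card, Fintype.card_fin,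
      nsmul_eq_mul]
    push_cast
    rw [h3]
    split_ifs <;> rfl
  · rcases h2 a with rfl | rfl
    · rw [if_neg (by simp)]
      refine hshift _ (fun x => ?_) htwo
      simp only [zero_mul, sg_zero, mul_one, Pi.add_apply, Pi.single_eq_same]
      rw [sg_add, sg_one]
      ring
    · by_cases hpq : p = q
      · subst hpq
        rw [if_pos ⟨rfl, rfl⟩]
        simp only [one_mul, sg_mul_self, sum_const, card_univ, Fintype.card_fun, ZMod.card,
          Fintype.card_fin, nsmul_eq_mul, mul_one]
        push_cast
        rfl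
      · rw [if_neg (by simp [hpq])]
        refine hshift _ (fun x => ?_) htwo
        simp only [one_mul, Pi.add_apply, Pi.single_eq_same]
        rw [Pi.single_eq_of_ne (Ne.symm hpq), add_zero, sg_add, sg_one]
        ring

/-- The whole matrix has large rank. -/
theorem rank_all (c : (Fin n → ZMod 2) → F) (hc : c 1 ≠ 0) (htwo : (2 : F) ≠ 0) :
    b ^ n ≤ (∑ u, Matrix.of fun (x : XX n b) (y : YY n b) => c u * Phi F u x y).rank := by
  classical
  let M : Matrix (XX n b) (YY n b) F := ∑ u, Matrix.of fun x y => c u * Phi F u x y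
  let L : Matrix (YY n b) (XX n b) F := fun φ x => ∏ i, sg F (x i (φ i))
  have h1 : L * M = Matrix.diagonal fun _ => c 1 * (2 ^ b) ^ n := by
    ext φ y
    have h2 : (L * M) φ y = ∑ u, c u * ∑ x : XX n b, ∏ i, (sg F (x i (φ i)) * sg F (u i * x i (y i))) := by
      rw [Matrix.mul_apply]
      have h3 : ∀ x, L φ x * M x y = ∑ u, c u * ∏ i, (sg F (x i (φ i)) * sg F (u i * x i (y i))) := by
        intro x
        have h4 : M x y = ∑ u, c u * Phi F u x y := by
          show (∑ u, Matrix.of fun x y => c u * Phi F u x y) x y = _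
          rw [Matrix.sum_apply]
          rfl
        rw [h4, mul_sum]
        refine sum_congr rfl fun u _ => ?_
        rw [prod_mul_distrib]
        show (∏ i, sg F (x i (φ i))) * (c u * ∏ i, sg F (u i * x i (y i))) = _
        ring
      rw [sum_congr rfl fun x _ => h3 x, sum_comm]
      refine sum_congr rfl fun u _ => ?_
      rw [mul_sum]
    have h3 : ∀ u : Fin n → ZMod 2, ∑ x : XX n b, ∏ i, (sg F (x i (φ i)) * sg F (u i * x i (y i))) =
        if u = 1 ∧ φ = y then (2 ^ b) ^ n else 0 := by
      intro u
      have h4 := Finset.prod_univ_sum (fun _ : Fin n => (univ : Finset (Fin b → ZMod 2)))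
        (fun i x => sg F (x (φ i)) * sg F (u i * x (y i)))
      rw [Fintype.piFinset_univ] at h4
      rw [← h4]
      simp only [sum_factor]
      by_cases h5 : u = 1 ∧ φ = y
      · obtain ⟨rfl, rfl⟩ := h5
        rw [if_pos ⟨rfl, rfl⟩]
        simp
      · rw [if_neg h5]
        have h6 : ∃ i, ¬ (u i = 1 ∧ φ i = y i) := by
          by_contra hcon
          push Not at hcon
          exact h5 ⟨funext fun i => (hcon i).1, funext fun i => (hcon i).2⟩
        obtain ⟨i, hi⟩ := h6
        exact prod_eq_zero (mem_univ i) (if_neg hi)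
    rw [h2]
    simp only [h3]
    rw [Matrix.diagonal_apply]
    by_cases hφ : φ = y
    · rw [if_pos hφ]
      rw [sum_eq_single 1]
      · rw [if_pos ⟨rfl, hφ⟩]
      · intro u _ hu
        rw [if_neg (fun h => hu h.1), mul_zero]
      · intro h
        exact absurd (mem_univ _) h
    · rw [if_neg hφ]
      refine sum_eq_zero fun u _ => ?_
      rw [if_neg (fun h => hφ h.2), mul_zero]
  have h2 : (L * M).rank = b ^ n := by
    rw [h1]
    have hne : c 1 * (2 ^ b) ^ n ≠ 0 := mul_ne_zero hc (pow_ne_zero _ (pow_ne_zero _ htwo))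
    have h3 : IsUnit (Matrix.diagonal fun _ : YY n b => c 1 * ((2 : F) ^ b) ^ n) := by
      rw [Matrix.isUnit_iff_isUnit_det, Matrix.det_diagonal, prod_const]
      exact (isUnit_iff_ne_zero.2 hne).pow _
    rw [Matrix.rank_of_isUnit _ h3, Fintype.card_fun, Fintype.card_fin, Fintype.card_fin]
  rw [← h2]
  exact Matrix.rank_mul_le_right L M

end Pool.Agent.V8H43.MS
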